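import Pool.Agent.ILV.Product2
import Pool.Agent.ILV.Lower

/-!
The complexity of the `k`-level of lines with slopes and intercepts in sets with small tripling,
and its exact order for integer coefficients in a box.
-/

namespace Pool.Agent.Results.MP_a08d0a_co.IntegerLines
open Pool.Agent.KL Pool.Agent.ILV
open scoped Pointwise

/-- (1) If the slopes of the lines of `Γ` lie in `A` and their intercepts in `B`, the complexity of
the `k`-level is at most `21 (|A + A - A| |B + B - B| M^2)^(1/3)`, `M = min (k + 1) (|Γ| - k)`.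
(2) Let `ord s m k = min {(s k)^3, (m k)^3, s m k^2}`. For all sets `Γ` of lines `y = a x + b`
with integers `0 ≤ a ≤ s`, `0 ≤ b ≤ m` and all `k < |Γ|`, the complexity of the `k`-level is at
most `9 * (ord s m M)^(1/3)`, `M = min (k + 1) (|Γ| - k)`; and for every `ε > 0` this is sharp up
to a constant for all large `s, m` and all `k` with `k + 1 ≤ (1 - ε) s m`. -/
theorem result :
    (∀ (A B : Finset ℝ) (Γ : Finset (ℝ × ℝ)) (k : ℕ), (∀ l ∈ Γ, l.1 ∈ A ∧ l.2 ∈ B) →
      k < Γ.card → psi Γ k ^ 3 ≤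
        9261 * ((A + A - A).card * (B + B - B).card * min (k + 1) (Γ.card - k) ^ 2)) ∧
    (∀ (s m k : ℕ) (Γ : Finset (ℝ × ℝ)), 1 ≤ s → 1 ≤ m → InBox s m Γ → k < Γ.card →
      psi Γ k ^ 3 ≤ 729 * ord s m (min (k + 1) (Γ.card - k))) ∧
    ∀ ε : ℝ, 0 < ε → ∃ C : ℕ, 0 < C ∧ ∀ s m k : ℕ, C ≤ s → C ≤ m →
      (k + 1 : ℝ) ≤ (1 - ε) * (s * m) →
      ∃ Γ : Finset (ℝ × ℝ), InBox s m Γ ∧ k < Γ.card ∧ ord s m (k + 1) ≤ C * psi Γ k ^ 3 := by
  refine ⟨?_, ?_, ?_⟩
  · intro A B Γ k hΓ hk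
    classical
    have := psi_cube Γ A B (fun l hl => (hΓ l hl).1) (fun l hl => (hΓ l hl).2) k hk
    convert this
  · intro s m k Γ hs hm hΓ hk
    obtain ⟨h1, h2, h3⟩ := upper_bounds s m k Γ hs hm hΓ hk
    unfold ord
    rw [← Nat.mul_min_mul_left, ← Nat.mul_min_mul_left]
    refine le_min (le_min ?_ ?_) h3
    · calc psi Γ k ^ 3 ≤ (2 * (s * min (k + 1) (Γ.card - k))) ^ 3 := Nat.pow_le_pow_left h1 3
        _ = 8 * (s * min (k + 1) (Γ.card - k)) ^ 3 := by ring
        _ ≤ 729 * (s * min (k + 1) (Γ.card - k)) ^ 3 := Nat.mul_le_mul_right _ (by norm_num)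
    · calc psi Γ k ^ 3 ≤ (4 * (m * min (k + 1) (Γ.card - k))) ^ 3 := Nat.pow_le_pow_left h2 3
        _ = 64 * (m * min (k + 1) (Γ.card - k)) ^ 3 := by ring
        _ ≤ 729 * (m * min (k + 1) (Γ.card - k)) ^ 3 := Nat.mul_le_mul_right _ (by norm_num)
  · intro ε hε
    obtain ⟨D0, hD0⟩ := exists_nat_gt (2 / ε)
    set D := D0 + 3 with hD
    have hD3 : 3 ≤ D := by omega
    have hDε : 2 ≤ D * ε := by
      have h1 : 2 / ε < D := by
        rw [hD]; push_cast; linarith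
      rw [div_lt_iff₀ hε] at h1
      exact h1.le
    refine ⟨256 * D + 8 * ((3 * D * (2304 * D ^ 2)) ^ 3 * (7247757312 * 512)), by omega, ?_⟩
    intro s m k hs hm hk
    obtain ⟨Γ, g1, g2, g3⟩ := lower_all D s m k hD3 (by omega) (by omega) (by
      have e1 : ((D * (k + 1) : ℕ) : ℝ) ≤ (((D - 2) * (s * m) : ℕ) : ℝ) := by
        rw [Nat.cast_mul, Nat.cast_mul, Nat.cast_sub (by omega)]
        push_cast
        have e2 : (0 : ℝ) ≤ (s : ℝ) * m := by positivity
        have e3 : (0 : ℝ) ≤ (D : ℝ) := by positivity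
        calc (D : ℝ) * (k + 1) ≤ D * ((1 - ε) * (s * m)) := mul_le_mul_of_nonneg_left hk e3
          _ = (D - D * ε) * (s * m) := by ring
          _ ≤ (D - 2) * (s * m) := mul_le_mul_of_nonneg_right (by linarith) e2
      exact_mod_cast e1)
    exact ⟨Γ, g1, g2, g3.trans (Nat.mul_le_mul_right _ (by omega))⟩

end Pool.Agent.Results.MP_a08d0a_co.IntegerLines
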