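import Pool.Agent.KL.PartA
import Pool.Agent.KL.PartB
import Pool.Agent.KL.PartC
import Pool.Agent.KL.PartE1

namespace Pool.Agent.Results.MP_a08d0a_co.LevelLowerBound

open Pool.Agent.KL

/-- There is an absolute constant `c > 0` such that for all `n ≥ 2` and `0 ≤ k < n` the maximum
complexity `e_k(n)` of the `k`-level of `n` lines satisfies
`e_k(n) ≥ c n exp(c (log min(k+1, n-k))^(2/3))`. In particular the halving level can have
`n 2^{Ω((log n)^{2/3})}` vertices. -/
theorem result : ∃ c : ℝ, 0 < c ∧ ∀ n k : ℕ, 2 ≤ n → k < n →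
    c * n * Real.exp (c * (Real.log (min (k + 1) (n - k) : ℕ)) ^ ((2 : ℝ) / 3))
      ≤ (eMax k n : ℝ) :=
  partB (partE' partC) partA

end Pool.Agent.Results.MP_a08d0a_co.LevelLowerBound
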