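import Pool.Agent.PSX.Main

namespace Pool.Agent.Results.MP_a08d0a_co.PseudolineLevel

open Pool.Agent.PLevel Pool.Agent.PSX

/-- `w` is the sequence of crossings, from left to right, of a simple arrangement of `n`
pseudolines: the sweep line starts with the order `0, 1, ..., n - 1` (from below) and ends with the
reversed order, and every pair of pseudolines crosses exactly once. The letter `i` is a crossing
with exactly `i` pseudolines below it. -/
def IsArrangement (n : ℕ) (w : List ℕ) : Prop := Sweep n 1 w Fin.revPerm

/-- The complexity of the `k`-level: the number of crossings at which the pseudoline at the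
position `k` (positions are counted from below and start with `0`) changes. -/
def psi (w : List ℕ) (k : ℕ) : ℕ := w.countP (fun i => decide (i = k ∨ i + 1 = k))

/-- For all `n ≥ 2` and `0 ≤ k < n` some simple arrangement of `n` pseudolines has a `k`-level with
at least `n m ^ c / 40` vertices, where `m = min (k + 1) (n - k)` and
`c = log 2 / log 31 = 0.2018...`. In particular the median level of an arrangement of `n`
pseudolines can have `Ω (n ^ 1.2018)` vertices. -/
theorem result : ∀ n k : ℕ, 2 ≤ n → k < n →
    ∃ w : List ℕ, IsArrangement n w ∧
      (n : ℝ) * ((min (k + 1) (n - k) : ℕ) : ℝ) ^ (Real.log 2 / Real.log 31) / 40 ≤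
        (psi w k : ℝ) := by
  intro n k hn hk
  by_cases h : 2 * k + 1 ≤ n
  · obtain ⟨w, hw, hc⟩ := low_half hn h
    refine ⟨w, hw, ?_⟩
    have h1 : min (k + 1) (n - k) = k + 1 := min_eq_left (by omega)
    rw [h1]
    push_cast
    refine hc.trans ?_
    have h2 : w.count k ≤ psi w k := by
      unfold List.count psi
      refine List.countP_mono_left ?_
      intro i _ hi
      simp only [beq_iff_eq] at hi
      simp [hi]
    exact_mod_cast h2
  · have hk0 : 1 ≤ k := by omega
    obtain ⟨w, hw, hc⟩ := low_half (n := n) (k := n - 1 - k) hn (by omega)
    refine ⟨w.map (fun k => n - 2 - k), ?_, ?_⟩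
    · have h1 := sweep_rev hw
      have h2 : (Fin.revPerm * Fin.revPerm : Equiv.Perm (Fin n)) = 1 := by
        ext x
        simp
      rw [mul_one, h2, one_mul] at h1
      exact h1
    · have h1 : min (k + 1) (n - k) = n - 1 - k + 1 := by
        rw [min_eq_right (by omega)]
        omega
      rw [h1]
      push_cast
      refine hc.trans ?_
      have h2 : w.count (n - 1 - k) ≤ psi (w.map (fun k => n - 2 - k)) k := by
        unfold List.count psi
        rw [List.countP_map]
        refine List.countP_mono_left ?_
        intro i _ hi
        simp only [beq_iff_eq] at hi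
        simp only [Function.comp, decide_eq_true_eq]
        right
        omega
      exact_mod_cast h2

end Pool.Agent.Results.MP_a08d0a_co.PseudolineLevel
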