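import Pool.Agent.SMK.Planar

namespace Pool.Agent.Results.MP_a08d0a_co.SmoothedLevel

open MeasureTheory Pool.Agent.KL Pool.Agent.SMK
open scoped ENNReal

open Classical in
/-- Smoothed analysis of the `k`-level: `n` independent random lines `y = a_i x + b_i`, where
`(a_i, b_i)` has a density `f_i ≤ A / δ_i ^ 2` vanishing outside the square of half side `δ_i`
with centre `c_i`. The expected complexity of the `k`-level is at most
`400 (A ^ 2 n min(k + 1, n - k) ∑ R / δ_i) ^ (1 / 3)`. -/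
theorem result (n k : ℕ) (hk : k < n) (A R : ℝ) (δ : Fin n → ℝ) (c : Fin n → ℝ × ℝ)
    (f : Fin n → ℝ × ℝ → ℝ≥0∞)
    (hδ : ∀ i, 0 < δ i ∧ δ i ≤ R)
    (hc : ∀ i, |(c i).1| ≤ R ∧ |(c i).2| ≤ R)
    (hf : ∀ i, Measurable (f i))
    (hA : ∀ i u, f i u ≤ ENNReal.ofReal (A / δ i ^ 2))
    (hs : ∀ i u, f i u ≠ 0 → |u.1 - (c i).1| ≤ δ i ∧ |u.2 - (c i).2| ≤ δ i)
    (h1 : ∀ i, ∫⁻ u, f i u = 1) :
    Integrable (fun x : Fin n → ℝ × ℝ => (psi (Finset.univ.image x) k : ℝ))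
      (Measure.pi fun i => volume.withDensity (f i)) ∧
    ∫ x : Fin n → ℝ × ℝ, (psi (Finset.univ.image x) k : ℝ)
        ∂(Measure.pi fun i => volume.withDensity (f i)) ≤
      400 * (A ^ 2 * n * (min (k + 1) (n - k) : ℕ) * ∑ i, R / δ i) ^ (1 / 3 : ℝ) :=
  smoothed (A := A) (R := R) (δ := δ) (c := c) (f := f)
    ⟨fun i => (hδ i).1, fun i => (hδ i).2, hc, hf, hA, hs, h1⟩ hk

end Pool.Agent.Results.MP_a08d0a_co.SmoothedLevel
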